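import Pool.Agent.Lib.MP_e6371f_lc.Basic

set_option autoImplicit false

open Cardinal Set Topology

universe u

namespace Pool.Agent.Results.MP_e6371f_lc.PerfectSetEquiv

open Pool.Agent.Lib.MP_e6371f_lc

/-- **Theorem.** For every regular uncountable cardinal `κ` the following are equivalent:
(1) the assertion of Q1 at `κ`: every closed continuous image `E` of `κ^κ` has a subset `X` of
size at most `κ^{<κ}` with `E \ X` `(ω+1)`-perfect;
(2) the same for all closed sets `E`;
(3) every closed set of size greater than `κ^{<κ}` has a nonempty `(ω+1)`-perfect subset. -/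
theorem result (κ : Cardinal.{u}) (hreg : κ.IsRegular) (hω : ℵ₀ < κ) :
    List.TFAE [
      ∀ E : Set (Pt κ), IsClosed[boundedTop κ] E → IsContinuousImage E → Removable E,
      ∀ E : Set (Pt κ), IsClosed[boundedTop κ] E → Removable E,
      ∀ E : Set (Pt κ), IsClosed[boundedTop κ] E → κ ^< κ < #E →
        ∃ P ⊆ E, P.Nonempty ∧ OmegaOnePerfect P] := by
  have : NoMaxOrder κ.ord.ToType := Cardinal.noMaxOrder hreg.aleph0_le
  have : Nonempty κ.ord.ToType := by
    rw [← Cardinal.mk_ne_zero_iff, Cardinal.mk_ord_toType]
    exact hreg.ne_zero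
  tfae_have 1 → 2 := fun h C hC => removable_of_images h C hC
  tfae_have 2 → 1 := fun h E hE _ => h E hE
  tfae_have 2 → 3 := fun h E hE hbig => psp_of_removable E hbig (h E hE)
  tfae_have 3 → 2 := fun h E hE => removable_of_psp hω h E hE
  tfae_finish

end Pool.Agent.Results.MP_e6371f_lc.PerfectSetEquiv
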