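import Pool.Agent.Lib.MP_e6371f_lc.Basic

set_option autoImplicit false

open Cardinal Set Topology

universe u

namespace Pool.Agent.Results.MP_e6371f_lc.ThinLevels

open Pool.Agent.Lib.MP_e6371f_lc

variable {κ : Cardinal.{u}}

/-- The `a`-th level of (the tree of) `E`: all restrictions to `{b | b < a}` of members of `E`. -/
def level (E : Set (Pt κ)) (a : κ.ord.ToType) : Set (Set.Iio a → κ.ord.ToType) :=
  (fun x b => x b.1) '' E

theorem bdd (hreg : κ.IsRegular) {ι : Type u} (hι : #ι < κ) (g : ι → κ.ord.ToType) :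
    ∃ b, ∀ i, g i < b := by
  by_contra h
  push Not at h
  have h1 : IsCofinal (Set.range g) := fun b => by
    obtain ⟨i, hi⟩ := h b
    exact ⟨g i, ⟨i, rfl⟩, hi⟩
  have h2 := Order.cof_le h1
  rw [Ordinal.cof_toType, hreg.cof_ord] at h2
  exact absurd hι (not_lt.2 (h2.trans Cardinal.mk_range_le))

/-- Given a function `D` on `κ`, every `ι` of size `< κ` can be mapped to `κ` in such a way that
the values are above `B` and, for two different indices, one of the two values is above the
`D`-value of the other. -/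
theorem spread (hreg : κ.IsRegular) {ι : Type u} (hι : #ι < κ) (D : κ.ord.ToType → κ.ord.ToType)
    (B : κ.ord.ToType) :
    ∃ (g : ι → κ.ord.ToType) (M : κ.ord.ToType), (∀ i, B < g i ∧ g i < M ∧ D (g i) < M) ∧
      ∀ i j, i ≠ j → D (g i) < g j ∨ D (g j) < g i := by
  classical
  obtain ⟨r, hr⟩ := exists_wellFoundedLT ι
  have key : ∀ (i : ι) (rec : (j : ι) → j < i → κ.ord.ToType),
      ∃ b, B < b ∧ ∀ j (h : j < i), D (rec j h) < b := by
    intro i rec
    have hlt : #(Option {j : ι // j < i}) < κ := by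
      rw [Cardinal.mk_option]
      exact Cardinal.add_lt_of_lt hreg.aleph0_le ((Cardinal.mk_subtype_le _).trans_lt hι)
        (Cardinal.one_lt_aleph0.trans_le hreg.aleph0_le)
    obtain ⟨b, hb⟩ := bdd hreg hlt (fun o => match o with
      | none => B
      | some j => D (rec j.1 j.2))
    exact ⟨b, hb none, fun j h => hb (some ⟨j, h⟩)⟩
  choose F hF using key
  let g : ι → κ.ord.ToType := (wellFounded_lt (α := ι)).fix F
  have hg : ∀ i, g i = F i (fun j _ => g j) := fun i => WellFounded.fix_eq _ _ _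
  have h1 : ∀ i, B < g i := fun i => by rw [hg]; exact (hF i _).1
  have h2 : ∀ i j, j < i → D (g j) < g i := fun i j hij => by
    rw [hg i]; exact (hF i (fun j _ => g j)).2 j hij
  obtain ⟨M₁, hM₁⟩ := bdd hreg hι g
  obtain ⟨M₂, hM₂⟩ := bdd hreg hι (fun i => D (g i))
  refine ⟨g, max M₁ M₂, fun i => ⟨h1 i, (hM₁ i).trans_le (le_max_left _ _),
    (hM₂ i).trans_le (le_max_right _ _)⟩, fun i j hij => ?_⟩
  rcases lt_or_gt_of_ne hij with h | h
  · exact Or.inl (h2 j i h)
  · exact Or.inr (h2 i j h)

/-- The positions as a function of the list of moves. -/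
def ans (x₀ : Pt κ) (σ : List κ.ord.ToType → Pt κ) : List κ.ord.ToType → Pt κ
  | [] => x₀
  | b :: l => σ (b :: l)

theorem pos_eq (x₀ : Pt κ) (σ : List κ.ord.ToType → Pt κ) (a : ℕ → κ.ord.ToType) (n : ℕ) :
    pos x₀ σ a n = ans x₀ σ ((List.range n).map a) := by
  cases n with
  | zero => rfl
  | succ n =>
    rw [pos_succ, List.range_succ_eq_map, List.map_cons]
    rfl

/-- A list of moves together with a bound for them. -/
def Valid (p : List κ.ord.ToType × κ.ord.ToType) : Prop :=
  ∃ (n : ℕ) (a : ℕ → κ.ord.ToType), StrictMono a ∧ p.1 = (List.range n).map a ∧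
    ∀ k < n, a k ≤ p.2

theorem Valid.extend [NoMaxOrder κ.ord.ToType] {p : List κ.ord.ToType × κ.ord.ToType}
    (hp : Valid p) {b : κ.ord.ToType} (hb : p.2 < b) :
    ∃ (n : ℕ) (a : ℕ → κ.ord.ToType), StrictMono a ∧ p.1 = (List.range n).map a ∧
      p.1 ++ [b] = (List.range (n + 1)).map a ∧ a n = b ∧ ∀ k < n + 1, a k ≤ b := by
  obtain ⟨n, a, ha, hpa, hk⟩ := hp
  obtain ⟨f, hf, hf0⟩ := exists_strictMono_from b
  have h1 : ∀ k, k < n → (fun k => if k < n then a k else f (k - n)) k = a k :=
    fun k hk => if_pos hk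
  have h2 : (fun k => if k < n then a k else f (k - n)) n = b := by
    simp [hf0]
  have h3 : p.1 = (List.range n).map (fun k => if k < n then a k else f (k - n)) := by
    rw [hpa]
    apply List.map_congr_left
    intro k hk
    exact (h1 k (List.mem_range.1 hk)).symm
  refine ⟨n, fun k => if k < n then a k else f (k - n), ?_, h3, ?_, h2, ?_⟩
  · intro i j hij
    by_cases hj : j < n
    · simp only [if_pos hj, if_pos (hij.trans hj)]
      exact ha hij
    · by_cases hi : i < n
      · simp only [if_pos hi, if_neg hj]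
        exact ((hk i hi).trans_lt hb).trans_le (hf0 ▸ hf.monotone (Nat.zero_le _))
      · simp only [if_neg hi, if_neg hj]
        exact hf (by omega)
  · rw [List.range_succ, List.map_append, ← h3, List.map_singleton]
    exact congrArg (fun c => p.1 ++ [c]) h2.symm
  · intro k hk'
    by_cases hkn : k < n
    · simp only [if_pos hkn]
      exact ((hk k hkn).trans_lt hb).le
    · have : k = n := by omega
      rw [this]
      exact h2.le

theorem exists_level (hreg : κ.IsRegular) (hω : ℵ₀ < κ) {P : Set (Pt κ)} (hP : OmegaOnePerfect P)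
    (hne : P.Nonempty) {ι : Type u} (hι : #ι < κ) :
    ∃ a, Nonempty ((ℕ → ι) ↪ level P a) := by
  classical
  have : NoMaxOrder κ.ord.ToType := Cardinal.noMaxOrder hreg.aleph0_le
  have : Nonempty κ.ord.ToType := by
    rw [← Cardinal.mk_ne_zero_iff, Cardinal.mk_ord_toType]
    exact hreg.ne_zero
  obtain ⟨x₀, hx₀⟩ := hne
  obtain ⟨σ, τ, hw⟩ := hP.2 x₀ hx₀
  set S := ans x₀ σ with hS
  -- the game property at valid positions
  have hgame : ∀ p, Valid p → ∀ b, p.2 < b → S (p.1 ++ [b]) ≠ S p.1 ∧
      Agree b (S (p.1 ++ [b])) (S p.1) := by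
    intro p hp b hb
    obtain ⟨n, a, ha, h1, h2, h3, -⟩ := hp.extend hb
    have h4 := ((hw a ha).1 (n + 1) (by omega)).2 n (by omega)
    rw [pos_eq, pos_eq, ← h1, ← h2, h3] at h4
    exact h4
  -- difference points
  have hD : ∀ p, Valid p → ∀ b, p.2 < b → ∃ d, S (p.1 ++ [b]) d ≠ S p.1 d := by
    intro p hp b hb
    by_contra h
    push Not at h
    exact (hgame p hp b hb).1 (funext h)
  let D : List κ.ord.ToType × κ.ord.ToType → κ.ord.ToType → κ.ord.ToType := fun p b =>
    if h : ∃ d, S (p.1 ++ [b]) d ≠ S p.1 d then h.choose else b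
  have hDspec : ∀ p, Valid p → ∀ b, p.2 < b → S (p.1 ++ [b]) (D p b) ≠ S p.1 (D p b) := by
    intro p hp b hb
    have h := hD p hp b hb
    simp only [D, dif_pos h]
    exact h.choose_spec
  choose g M hg hgM using fun p : List κ.ord.ToType × κ.ord.ToType =>
    spread hreg hι (D p) p.2
  let step : List κ.ord.ToType × κ.ord.ToType → ι → List κ.ord.ToType × κ.ord.ToType :=
    fun p i => (p.1 ++ [g p i], M p)
  let init : List κ.ord.ToType × κ.ord.ToType := ([], Classical.arbitrary _)
  have hstep : ∀ p i, Valid p → Valid (step p i) := by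
    intro p i hp
    obtain ⟨n, a, ha, h1, h2, h3, h4⟩ := hp.extend (hg p i).1
    exact ⟨n + 1, a, ha, h2, fun k hk => (h4 k hk).trans (hg p i).2.1.le⟩
  let fr : (ℕ → ι) → ℕ → List κ.ord.ToType × κ.ord.ToType :=
    fun f n => ((List.range n).map f).foldl step init
  have hfr : ∀ f n, fr f (n + 1) = step (fr f n) (f n) := by
    intro f n
    simp only [fr, List.range_succ, List.map_append, List.map_singleton, List.foldl_append,
      List.foldl_cons, List.foldl_nil]
  have hvalid : ∀ f n, Valid (fr f n) := by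
    intro f n
    induction n with
    | zero =>
      obtain ⟨a, ha, -⟩ := exists_strictMono_from (Classical.arbitrary κ.ord.ToType)
      exact ⟨0, a, ha, rfl, fun k hk => absurd hk (Nat.not_lt_zero _)⟩
    | succ n ih => rw [hfr]; exact hstep _ _ ih
  let A : (ℕ → ι) → ℕ → κ.ord.ToType := fun f n => g (fr f n) (f n)
  have hA1 : ∀ f n, (fr f n).1 = (List.range n).map (A f) := by
    intro f n
    induction n with
    | zero => rfl
    | succ n ih =>
      rw [hfr, List.range_succ, List.map_append, ← ih, List.map_singleton]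
  have hA2 : ∀ f n, M (fr f n) < A f (n + 1) := by
    intro f n
    have := (hg (fr f (n + 1)) (f (n + 1))).1
    rw [hfr] at this
    simpa only [A, hfr] using this
  have hA3 : ∀ f, StrictMono (A f) := fun f => strictMono_nat_of_lt_succ fun n =>
    ((hg (fr f n) (f n)).2.1).trans (hA2 f n)
  have hans : ∀ f n, pos x₀ σ (A f) n = S (fr f n).1 := by
    intro f n
    rw [pos_eq, ← hA1]
  -- separation
  have hsep : ∀ f f' : ℕ → ι, f ≠ f' → ∃ n, ∃ d < M (fr f n), τ (A f) d ≠ τ (A f') d := by
    intro f f' hff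
    have hex : ∃ n, f n ≠ f' n := by
      by_contra h
      push Not at h
      exact hff (funext h)
    set n := Nat.find hex with hn
    have hnspec : f n ≠ f' n := Nat.find_spec hex
    have hlt : ∀ k < n, f k = f' k := fun k hk => by
      by_contra h
      exact Nat.find_min hex hk h
    have hfr' : fr f n = fr f' n := by
      simp only [fr]
      congr 1
      apply List.map_congr_left
      intro k hk
      exact hlt k (List.mem_range.1 hk)
    refine ⟨n, ?_⟩
    set p := fr f n with hp
    have hpv : Valid p := hvalid f n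
    have hdiff : ∃ d < M p, S (p.1 ++ [g p (f n)]) d ≠ S (p.1 ++ [g p (f' n)]) d := by
      rcases hgM p _ _ hnspec with h | h
      · refine ⟨D p (g p (f n)), (hg p (f n)).2.2, ?_⟩
        rw [(hgame p hpv _ (hg p (f' n)).1).2 _ h]
        exact hDspec p hpv _ (hg p (f n)).1
      · refine ⟨D p (g p (f' n)), (hg p (f' n)).2.2, ?_⟩
        rw [(hgame p hpv _ (hg p (f n)).1).2 _ h]
        exact (hDspec p hpv _ (hg p (f' n)).1).symm
    obtain ⟨d, hd, hne⟩ := hdiff
    refine ⟨d, hd, ?_⟩
    have e1 : pos x₀ σ (A f) (n + 1) = S (p.1 ++ [g p (f n)]) := by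
      rw [hans, hfr]
    have e2 : pos x₀ σ (A f') (n + 1) = S (p.1 ++ [g p (f' n)]) := by
      rw [hans, hfr, ← hfr']
    have e3 : τ (A f) d = pos x₀ σ (A f) (n + 1) d :=
      ((hw (A f) (hA3 f)).2.2 (n + 1)).2 d (hd.trans (hA2 f n))
    have e4 : τ (A f') d = pos x₀ σ (A f') (n + 1) d :=
      ((hw (A f') (hA3 f')).2.2 (n + 1)).2 d (by
        refine lt_trans ?_ (hA2 f' n)
        rw [← hfr']; exact hd)
    rw [e3, e4, e1, e2]
    exact hne
  -- common bound
  have hlist : #(List ι) < κ :=
    (Cardinal.mk_list_le_max ι).trans_lt (max_lt hω hι)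
  obtain ⟨β, hβ⟩ := bdd hreg hlist (fun l => M (l.foldl step init))
  refine ⟨β, ⟨⟨fun f => ⟨fun b => τ (A f) b.1, ⟨τ (A f), (hw (A f) (hA3 f)).2.1, rfl⟩⟩, ?_⟩⟩⟩
  intro f f' hff
  by_contra hne
  obtain ⟨n, d, hd, hdne⟩ := hsep f f' hne
  have hdβ : d < β := hd.trans (hβ ((List.range n).map f))
  have := congrFun (congrArg Subtype.val hff) ⟨d, hdβ⟩
  exact hdne this

/-- **Theorem.** Let `κ` be a regular uncountable cardinal and `μ < κ`. If some closed set
`E ⊆ κ^κ` has more than `κ^{<κ}` elements while each level of its tree has fewer than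
`μ^{ℵ₀}` elements, then the assertion of Q1 fails at `κ`: there is a closed continuous image `E'`
of `κ^κ` such that `E' \ X` is `(ω+1)`-perfect for no `X ⊆ E'` of size at most `κ^{<κ}`. -/
theorem result (κ : Cardinal.{u}) (hreg : κ.IsRegular) (hω : ℵ₀ < κ) (μ : Cardinal.{u})
    (hμ : μ < κ) (E : Set (Pt κ)) (hE : IsClosed[boundedTop κ] E) (hbig : κ ^< κ < #E)
    (hthin : ∀ a, #(level E a) < μ ^ ℵ₀) :
    ∃ E' : Set (Pt κ), IsClosed[boundedTop κ] E' ∧ IsContinuousImage E' ∧ ¬ Removable E' := by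
  by_contra hcon
  push Not at hcon
  have : NoMaxOrder κ.ord.ToType := Cardinal.noMaxOrder hreg.aleph0_le
  have : Nonempty κ.ord.ToType := by
    rw [← Cardinal.mk_ne_zero_iff, Cardinal.mk_ord_toType]
    exact hreg.ne_zero
  obtain ⟨P, hPE, hne, hP⟩ := psp_of_removable E hbig (removable_of_images hcon E hE)
  have hι : #μ.out < κ := by rwa [Cardinal.mk_out]
  obtain ⟨a, ⟨φ⟩⟩ := exists_level hreg hω hP hne hι
  have h1 : μ ^ ℵ₀ ≤ #(level P a) := by
    have h2 : #(ℕ → μ.out) = μ ^ ℵ₀ := by simp
    rw [← h2]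
    exact Cardinal.mk_le_of_injective φ.injective
  have h3 : #(level P a) ≤ #(level E a) :=
    Cardinal.mk_le_mk_of_subset (Set.image_mono hPE)
  exact absurd (hthin a) (not_lt.2 (h1.trans h3))

end Pool.Agent.Results.MP_e6371f_lc.ThinLevels
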