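import Pool.Agent.Lib.MP_e6371f_lc.Final

/-!
# A model of `ZFC` with a closed continuous image of the generalized Baire space that has no
`(ω + 1)`-perfect subset with small complement
-/

namespace Pool.Agent.Results.MP_e6371f_lc.ZFCModel

open Pool.Agent.Lib.MP_e6371f_lc Pool.Agent.Lib.MP_1ab623_gt Pool.Agent.Lib.MP_1929a6_lc

/-- There is a model `(M, E)` of `ZFC` in which, for `κ = ω₁`, there is a closed subset `C` of the
space of all functions from `κ` to `κ` (with the bounded topology) that is a continuous image of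
this space and such that, for all `X ⊆ C` of cardinality at most `κ ^ (< κ)`, the set `D = C \ X`
is not `(ω + 1)`-perfect. -/
theorem result : ∃ (M : Type) (E : M → M → Prop), IsZFC E ∧
    ∃ w κ C : M, IsOmega E w ∧ IsOmegaOne E w κ ∧ IsClosedSet E κ C ∧
      IsContinuousImage E κ C ∧
      ∀ X D, Sub E X C → AtMostKappaLessKappa E κ X → (∀ t, E t D ↔ E t C ∧ ¬ E t X) →
        ¬ IsPerfectOmegaOne E w κ D :=
  Pool.Agent.Lib.MP_e6371f_lc.exists_ZFC_model

end Pool.Agent.Results.MP_e6371f_lc.ZFCModel
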